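import Pool.Agent.H72.EM.Basic

/-!
# Row DB of emc_modules: the doubled graph (helper79)
-/

set_option autoImplicit false

open Finset Pool.Agent.H72.EM

namespace Pool.Agent.H79.EMC

section DB

variable {n : ℕ}

/-- the first copy -/
def ia (i : Fin n) : Ix n := ⟨i.val, by omega⟩

/-- the second copy -/
def ib (i : Fin n) : Ix n := ⟨i.val + n, by omega⟩

/-- the first extra vertex -/
def pa : Ix n := ⟨2 * n, by omega⟩

/-- the second extra vertex -/
def pb : Ix n := ⟨2 * n + 1, by omega⟩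

lemma ia_inj : Function.Injective (ia : Fin n → Ix n) := by
  intro i j h
  have h1 := congrArg Fin.val h
  exact Fin.ext h1

lemma cases_ix (i : Ix n) : (∃ j, i = ia j) ∨ (∃ j, i = ib j) ∨ i = pa ∨ i = pb := by
  by_cases h1 : i.val < n
  · exact Or.inl ⟨⟨i.val, h1⟩, rfl⟩
  · by_cases h2 : i.val < 2 * n
    · refine Or.inr (Or.inl ⟨⟨i.val - n, by omega⟩, ?_⟩)
      apply Fin.ext
      show i.val = i.val - n + n
      omega
    · by_cases h3 : i.val = 2 * n
      · exact Or.inr (Or.inr (Or.inl (Fin.ext h3)))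
      · refine Or.inr (Or.inr (Or.inr (Fin.ext ?_)))
        show i.val = 2 * n + 1
        have := i.2
        omega

variable (c : Fin n → Fin n → ℕ)

lemma dbl_aa (i j : Fin n) : dbl c (ia i) (ia j) = c i j := by
  unfold dbl
  have h : (ia i).val < n ∧ (ia j).val < n := ⟨i.2, j.2⟩
  rw [dif_pos h]
  rfl

lemma dbl_bb (i j : Fin n) : dbl c (ib i) (ib j) = min 1 (c i j) := by
  unfold dbl
  have hi : (ib i).val = i.val + n := rfl
  have hj : (ib j).val = j.val + n := rfl
  have h : ¬ ((ib i).val < n ∧ (ib j).val < n) := by omega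
  have h' : n ≤ (ib i).val ∧ (ib i).val < 2 * n ∧ n ≤ (ib j).val ∧ (ib j).val < 2 * n := by
    have := i.2
    have := j.2
    omega
  rw [dif_neg h, dif_pos h']
  congr 2
  · apply Fin.ext
    show (ib i).val - n = i.val
    omega
  · apply Fin.ext
    show (ib j).val - n = j.val
    omega

lemma dbl_ab : dbl c pa pb = 1 := by
  unfold dbl
  have hi : (pa : Ix n).val = 2 * n := rfl
  have hj : (pb : Ix n).val = 2 * n + 1 := rfl
  rw [dif_neg (by omega), dif_neg (by omega), if_pos (by omega)]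

lemma dbl_ba : dbl c pb pa = 1 := by
  unfold dbl
  have hi : (pa : Ix n).val = 2 * n := rfl
  have hj : (pb : Ix n).val = 2 * n + 1 := rfl
  rw [dif_neg (by omega), dif_neg (by omega), if_pos (by omega)]

lemma dbl_symm (hs : ∀ i j, c i j = c j i) (i j : Ix n) : dbl c i j = dbl c j i := by
  unfold dbl
  split_ifs <;> first
    | omega
    | exact hs _ _
    | rw [hs]

lemma dbl_diag (hd : ∀ i, c i i = 0) (i : Ix n) : dbl c i i = 0 := by
  unfold dbl
  split_ifs <;> first
    | omega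
    | exact hd _
    | (rw [hd]; rfl)

lemma dbl_le (hl : ∀ i j, c i j ≤ 2) (i j : Ix n) : dbl c i j ≤ 2 := by
  unfold dbl
  split_ifs <;> first
    | omega
    | exact hl _ _

lemma dbl_sy (hs : ∀ i j, c i j = c j i) (hd : ∀ i, c i i = 0) (hl : ∀ i j, c i j ≤ 2) :
    Sy (dbl c) := ⟨dbl_symm c hs, dbl_diag c hd, dbl_le c hl⟩

lemma dbl_ne {i : Fin n} {j : Ix n} (h : dbl c (ia i) j ≠ 0) : j.val < n := by
  by_contra h1
  apply h
  unfold dbl
  have hi : (ia i).val = i.val := rfl
  have := i.2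
  rw [dif_neg (by omega), dif_neg (by omega), if_neg (by omega)]

lemma dbl_two {i j : Ix n} (h : dbl c i j = 2) : ∃ i', i = ia i' := by
  by_cases h1 : i.val < n
  · exact ⟨⟨i.val, h1⟩, rfl⟩
  · exfalso
    unfold dbl at h
    rw [dif_neg (by omega)] at h
    split_ifs at h <;> omega

lemma cnt_dbl (μ : Fin n → Fin n) (μ' : Ix n → Ix n) (h : ∀ i, μ' (ia i) = ia (μ i)) :
    (univ.filter fun i => dbl c i (μ' i) = 2).card = (univ.filter fun i => c i (μ i) = 2).card := by
  have h1 : (univ.filter fun i => dbl c i (μ' i) = 2) =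
      (univ.filter fun i => c i (μ i) = 2).map ⟨ia, ia_inj⟩ := by
    ext i
    rw [mem_map]
    constructor
    · intro hi
      have h2 := (mem_filter.1 hi).2
      obtain ⟨i', rfl⟩ := dbl_two c h2
      refine ⟨i', mem_filter.2 ⟨mem_univ _, ?_⟩, rfl⟩
      rw [h, dbl_aa] at h2
      exact h2
    · rintro ⟨i', hi', rfl⟩
      have h2 := (mem_filter.1 hi').2
      refine mem_filter.2 ⟨mem_univ _, ?_⟩
      show dbl c (ia i') (μ' (ia i')) = 2
      rw [h, dbl_aa]
      exact h2
  rw [h1, card_map]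

/-- the extended matching -/
def ext (μ : Fin n → Fin n) (i : Ix n) : Ix n :=
  if h : i.val < n then ia (μ ⟨i.val, h⟩)
  else if h : i.val < 2 * n then ib (μ ⟨i.val - n, by omega⟩)
  else if i.val = 2 * n then pb else pa

lemma ext_ia (μ : Fin n → Fin n) (i : Fin n) : ext μ (ia i) = ia (μ i) := by
  unfold ext
  have h : (ia i).val < n := i.2
  rw [dif_pos h]
  rfl

lemma ext_ib (μ : Fin n → Fin n) (i : Fin n) : ext μ (ib i) = ib (μ i) := by
  unfold ext
  have hi : (ib i).val = i.val + n := rfl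
  have := i.2
  rw [dif_neg (by omega), dif_pos (by omega)]
  congr 2
  apply Fin.ext
  show (ib i).val - n = i.val
  omega

lemma ext_pa (μ : Fin n → Fin n) : ext μ pa = pb := by
  unfold ext
  have hi : (pa : Ix n).val = 2 * n := rfl
  rw [dif_neg (by omega), dif_neg (by omega), if_pos hi]

lemma ext_pb (μ : Fin n → Fin n) : ext μ pb = pa := by
  unfold ext
  have hi : (pb : Ix n).val = 2 * n + 1 := rfl
  rw [dif_neg (by omega), dif_neg (by omega), if_neg (by omega)]

end DB

theorem pf_DB : T_DB := by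
  intro n k c hs hd hl
  refine ⟨dbl_sy c hs hd hl, ?_, ?_⟩
  · rintro ⟨μ', h1, h2, h3⟩
    have h4 : ∀ i : Fin n, (μ' (ia i)).val < n := fun i => dbl_ne c (h2 (ia i))
    have h5 : ∀ i : Fin n, μ' (ia i) = ia ⟨(μ' (ia i)).val, h4 i⟩ := fun i => rfl
    refine ⟨fun i => ⟨(μ' (ia i)).val, h4 i⟩, ?_, ?_, ?_⟩
    · intro i
      apply Fin.ext
      show (μ' (ia ⟨(μ' (ia i)).val, h4 i⟩)).val = i.val
      rw [← h5 i, h1]
      rfl
    · intro i
      have h6 := h2 (ia i)
      rw [h5 i, dbl_aa] at h6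
      exact h6
    · rw [← h3]
      exact (cnt_dbl c (fun i => ⟨(μ' (ia i)).val, h4 i⟩) μ' h5).symm
  · rintro ⟨μ, h1, h2, h3⟩
    refine ⟨ext μ, ?_, ?_, ?_⟩
    · intro i
      rcases cases_ix i with ⟨j, rfl⟩ | ⟨j, rfl⟩ | rfl | rfl
      · rw [ext_ia, ext_ia, h1]
      · rw [ext_ib, ext_ib, h1]
      · rw [ext_pa, ext_pb]
      · rw [ext_pb, ext_pa]
    · intro i
      rcases cases_ix i with ⟨j, rfl⟩ | ⟨j, rfl⟩ | rfl | rfl
      · rw [ext_ia, dbl_aa]
        exact h2 j
      · rw [ext_ib, dbl_bb]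
        have := h2 j
        omega
      · rw [ext_pa, dbl_ab]
        exact one_ne_zero
      · rw [ext_pb, dbl_ba]
        exact one_ne_zero
    · rw [cnt_dbl c μ (ext μ) (ext_ia μ), h3]

end Pool.Agent.H79.EMC
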