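import Pool.Agent.H72.EMC.CD

/-!
# Row DG of emc_modules: the generator of the doubled graph (helper79)
-/

set_option autoImplicit false

open Finset Pool.Agent.H72.EM

namespace Pool.Agent.H79.EMC

open Pool.Agent.H68.OQP Pool.Agent.H1.NP Pool.Agent.H72.EMC

lemma mat_fm {N : ℕ} (f : Fin N → Fin N → ℕ) :
    mat f = (List.range N).flatMap fun i => (List.range N).flatMap fun j =>
      [Pool.Agent.H72.EM.nat f i j] := by
  unfold mat
  rw [← List.map_coe_finRange_eq_range, List.flatMap_map]
  refine List.flatMap_congr ?_
  intro i _
  rw [List.flatMap_map, List.map_eq_flatMap]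
  refine List.flatMap_congr ?_
  intro j _
  simp [Pool.Agent.H72.EM.nat]

lemma rng2 {β : Type} (F : ℕ → List β) (n : ℕ) :
    (List.range (2 * n + 2)).flatMap F = (List.range n).flatMap F ++
      ((List.range n).flatMap (fun i => F (n + i)) ++ (F (2 * n) ++ F (2 * n + 1))) := by
  have h : List.range (2 * n + 2) = List.range n ++ (List.range n).map (fun i => n + i) ++
      [2 * n] ++ [2 * n + 1] := by
    rw [List.range_succ, List.range_succ, two_mul, List.range_add]
  rw [h, List.flatMap_append, List.flatMap_append, List.flatMap_append, List.flatMap_map]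
  simp

lemma nd {n : ℕ} (c : Fin n → Fin n → ℕ) (i j : ℕ) (hi : i < 2 * n + 2) (hj : j < 2 * n + 2) :
    Pool.Agent.H72.EM.nat (dbl c) i j =
      if i < n ∧ j < n then Pool.Agent.H72.EM.nat c i j
      else if n ≤ i ∧ i < 2 * n ∧ n ≤ j ∧ j < 2 * n then
        min 1 (Pool.Agent.H72.EM.nat c (i - n) (j - n))
      else if (i = 2 * n ∧ j = 2 * n + 1) ∨ (i = 2 * n + 1 ∧ j = 2 * n) then 1 else 0 := by
  unfold Pool.Agent.H72.EM.nat
  rw [dif_pos ⟨hi, hj⟩]
  unfold dbl
  by_cases h1 : i < n ∧ j < n
  · rw [dif_pos h1, if_pos h1, dif_pos h1]
  · rw [dif_neg h1, if_neg h1]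
    by_cases h2 : n ≤ i ∧ i < 2 * n ∧ n ≤ j ∧ j < 2 * n
    · rw [dif_pos h2, if_pos h2, dif_pos (by omega)]
    · rw [dif_neg h2, if_neg h2]

/-- the size of the given graph -/
def xN : Ex := .inp (.con 1)

/-- the entry -/
def xE : Ex := .inp (.add (.con 2) (.add (.mul xN (.var 1)) (.var 0)))

/-- zeros -/
def gz : Lg := .loop xN (.el (.con 0))

/-- the generator -/
def dgG : Lg :=
  .seq (.el (.inp (.con 0))) (.seq (.el (.add (.mul (.con 2) xN) (.con 2)))
    (.seq (.loop xN (.seq (.loop xN (.el xE)) (.seq gz (.seq (.el (.con 0)) (.el (.con 0))))))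
      (.seq (.loop xN (.seq gz (.seq (.loop xN (.ifle xE (.con 0) (.el (.con 0)) (.el (.con 1))))
          (.seq (.el (.con 0)) (.el (.con 0))))))
        (.seq (.seq gz (.seq gz (.seq (.el (.con 0)) (.el (.con 1)))))
          (.seq gz (.seq gz (.seq (.el (.con 1)) (.el (.con 0)))))))))

theorem pf_DG : T_DG := by
  refine ⟨dgG, ?_⟩
  intro n k c t
  have hE : ∀ i j : ℕ, i < n → j < n →
      xE.val (k :: n :: (mat c ++ t)) [j, i] = Pool.Agent.H72.EM.nat c i j := by
    intro i j hi hj
    have h : xE.val (k :: n :: (mat c ++ t)) [j, i] =
        (k :: n :: (mat c ++ t)).getD (2 + (n * i + j)) 0 := rfl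
    rw [h, mat_getD c k t i j hi hj]
  have hN : ∀ env : List ℕ, xN.val (k :: n :: (mat c ++ t)) env = n := fun _ => rfl
  have hk : ∀ env : List ℕ, (Ex.inp (Ex.con 0)).val (k :: n :: (mat c ++ t)) env = k := fun _ => rfl
  have hz : ∀ env : List ℕ, gz.out (k :: n :: (mat c ++ t)) env =
      (List.range n).flatMap fun _ => [0] := fun _ => rfl
  have hA : (List.range n).flatMap (fun i => (List.range (2 * n + 2)).flatMap fun j =>
        [Pool.Agent.H72.EM.nat (dbl c) i j]) =
      (List.range n).flatMap (fun i =>
        ((List.range n).flatMap fun j => [xE.val (k :: n :: (mat c ++ t)) [j, i]]) ++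
          (((List.range n).flatMap fun _ => [0]) ++ ([0] ++ [0]))) := by
    refine List.flatMap_congr ?_
    intro i hi
    have hi' : i < n := List.mem_range.1 hi
    rw [rng2]
    congr 1
    · refine List.flatMap_congr ?_
      intro j hj
      have hj' : j < n := List.mem_range.1 hj
      rw [hE i j hi' hj', nd c i j (by omega) (by omega), if_pos ⟨hi', hj'⟩]
    · congr 1
      · refine List.flatMap_congr ?_
        intro j hj
        have hj' : j < n := List.mem_range.1 hj
        rw [nd c i (n + j) (by omega) (by omega), if_neg (by omega), if_neg (by omega),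
          if_neg (by omega)]
      · rw [nd c i (2 * n) (by omega) (by omega), if_neg (by omega), if_neg (by omega),
          if_neg (by omega), nd c i (2 * n + 1) (by omega) (by omega), if_neg (by omega),
          if_neg (by omega), if_neg (by omega)]
  have hB : (List.range n).flatMap (fun i => (List.range (2 * n + 2)).flatMap fun j =>
        [Pool.Agent.H72.EM.nat (dbl c) (n + i) j]) =
      (List.range n).flatMap (fun i =>
        ((List.range n).flatMap fun _ => [0]) ++
          (((List.range n).flatMap fun j =>
            if xE.val (k :: n :: (mat c ++ t)) [j, i] ≤ 0 then [0] else [1]) ++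
              ([0] ++ [0]))) := by
    refine List.flatMap_congr ?_
    intro i hi
    have hi' : i < n := List.mem_range.1 hi
    rw [rng2]
    congr 1
    · refine List.flatMap_congr ?_
      intro j hj
      have hj' : j < n := List.mem_range.1 hj
      rw [nd c (n + i) j (by omega) (by omega), if_neg (by omega), if_neg (by omega),
          if_neg (by omega)]
    · congr 1
      · refine List.flatMap_congr ?_
        intro j hj
        have hj' : j < n := List.mem_range.1 hj
        rw [nd c (n + i) (n + j) (by omega) (by omega), if_neg (by omega), if_pos (by omega),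
          hE i j hi' hj', Nat.add_sub_cancel_left, Nat.add_sub_cancel_left]
        split_ifs with h
        · rw [show min 1 (Pool.Agent.H72.EM.nat c i j) = 0 by omega]
        · rw [show min 1 (Pool.Agent.H72.EM.nat c i j) = 1 by omega]
      · rw [nd c (n + i) (2 * n) (by omega) (by omega), if_neg (by omega), if_neg (by omega),
          if_neg (by omega), nd c (n + i) (2 * n + 1) (by omega) (by omega), if_neg (by omega),
          if_neg (by omega), if_neg (by omega)]
  have hC : (List.range (2 * n + 2)).flatMap (fun j => [Pool.Agent.H72.EM.nat (dbl c) (2 * n) j]) =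
      ((List.range n).flatMap fun _ => [0]) ++ (((List.range n).flatMap fun _ => [0]) ++
        ([0] ++ [1])) := by
    rw [rng2]
    congr 1
    · refine List.flatMap_congr ?_
      intro j hj
      have hj' : j < n := List.mem_range.1 hj
      rw [nd c (2 * n) j (by omega) (by omega), if_neg (by omega), if_neg (by omega),
          if_neg (by omega)]
    · congr 1
      · refine List.flatMap_congr ?_
        intro j hj
        have hj' : j < n := List.mem_range.1 hj
        rw [nd c (2 * n) (n + j) (by omega) (by omega), if_neg (by omega), if_neg (by omega),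
          if_neg (by omega)]
      · rw [nd c (2 * n) (2 * n) (by omega) (by omega), if_neg (by omega), if_neg (by omega),
          if_neg (by omega), nd c (2 * n) (2 * n + 1) (by omega) (by omega), if_neg (by omega),
          if_neg (by omega), if_pos (by omega)]
  have hD : (List.range (2 * n + 2)).flatMap
        (fun j => [Pool.Agent.H72.EM.nat (dbl c) (2 * n + 1) j]) =
      ((List.range n).flatMap fun _ => [0]) ++ (((List.range n).flatMap fun _ => [0]) ++
        ([1] ++ [0])) := by
    rw [rng2]
    congr 1
    · refine List.flatMap_congr ?_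
      intro j hj
      have hj' : j < n := List.mem_range.1 hj
      rw [nd c (2 * n + 1) j (by omega) (by omega), if_neg (by omega), if_neg (by omega),
          if_neg (by omega)]
    · congr 1
      · refine List.flatMap_congr ?_
        intro j hj
        have hj' : j < n := List.mem_range.1 hj
        rw [nd c (2 * n + 1) (n + j) (by omega) (by omega), if_neg (by omega), if_neg (by omega),
          if_neg (by omega)]
      · rw [nd c (2 * n + 1) (2 * n) (by omega) (by omega), if_neg (by omega), if_neg (by omega),
          if_pos (by omega), nd c (2 * n + 1) (2 * n + 1) (by omega) (by omega),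
          if_neg (by omega), if_neg (by omega), if_neg (by omega)]
  rw [mat_fm (dbl c), rng2, hA, hB, hC, hD]
  simp only [dgG, Lg.out, hz, hN, hk]
  rfl

end Pool.Agent.H79.EMC
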