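import Pool.Agent.H72.EM.Basic

/-!
# Row FA of emc_modules: from the final graph to the host (helper79)
-/

set_option autoImplicit false

open Finset Pool.Agent.H72.EM

namespace Pool.Agent.H79.EMC

variable {κ m : ℕ}

lemma fr_pole (c : Ix κ → Ix κ → ℕ) (b : Bk κ) (s : Sl) (q : PV m) (a : Fin 3) :
    fr c (((b, some (s, q)) : Vt κ m), a) = rd (q, a) := by
  obtain ⟨i, o⟩ := b
  cases o with
  | none => rfl
  | some j => fin_cases a <;> rfl

lemma ft_pole (c : Ix κ → Ix κ → ℕ) (b : Bk κ) (s : Sl) (q q' : PV m) (a a' : Fin 3)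
    (h : io (kd b s) q a = .inl (q', a')) :
    ft c (((b, some (s, q)) : Vt κ m), a) = ((b, some (s, q')), a') := by
  simp only [ft, h]

lemma io_leg (k : Bool) (l : Fin 3) : io k (lgv l : PV m) 0 = .inr l := by
  fin_cases l <;> rfl

lemma ft_lft (c : Ix κ → Ix κ → ℕ) (x : Dt (Hs κ)) :
    ft c (lft x : Dt (Vt κ m)) = lft (ht c x) := by
  obtain ⟨⟨b, o⟩, l⟩ := x
  cases o with
  | none => rfl
  | some s =>
    have h : (lft (((b, some s), l) : Dt (Hs κ)) : Dt (Vt κ m)) =
        (((b, some (s, lgv l)) : Vt κ m), 0) := rfl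
    rw [h]
    simp only [ft, io_leg]

/-- the host matching -/
def om (χ : Vt κ m → Fin 3) : Hs κ → Fin 3
  | (b, none) => χ (b, none)
  | (b, some s) => if χ (b, some (s, lgv 0)) = 0 then 0 else
      if χ (b, some (s, lgv 1)) = 0 then 1 else 2

section
variable {c : Ix κ → Ix κ → ℕ} {χ : Vt κ m → Fin 3} {k : ℕ}

lemma loc (hinv : ∀ x : Dt (Vt κ m), ft c (ft c x) = x) (hM : IsM (ft c) χ) (b : Bk κ) (s : Sl) :
    LM (kd b s) (fun q : PV m => χ (b, some (s, q))) := by
  intro q a q' a' h
  have h1 := IsM.iff hM hinv (b, some (s, q)) a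
  rw [ft_pole c b s q q' a a' h] at h1
  exact h1

lemma rc (hc : cnt (fr c) χ = 2 * k) (hk : 2 * k < m) (b : Bk κ) (s : Sl) :
    rcnt (fun q : PV m => χ (b, some (s, q))) < m := by
  refine lt_of_le_of_lt ?_ hk
  rw [← hc]
  unfold rcnt cnt
  refine card_le_card_of_injOn (fun q : PV m => ((b, some (s, q)) : Vt κ m)) ?_ ?_
  · intro q hq
    have hq' := (mem_filter.1 (by exact_mod_cast hq)).2
    have : ((b, some (s, q)) : Vt κ m) ∈ univ.filter fun v => fr c (v, χ v) = true := by
      rw [mem_filter]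
      refine ⟨mem_univ _, ?_⟩
      rw [fr_pole]
      exact hq'
    exact_mod_cast this
  · intro q _ q' _ h
    simpa using h

lemma use_iff (h3 : T_PO) (hinv : ∀ x : Dt (Vt κ m), ft c (ft c x) = x) (hM : IsM (ft c) χ)
    (hc : cnt (fr c) χ = 2 * k) (hk : 2 * k < m) (x : Dt (Hs κ)) :
    χ (lft x : Dt (Vt κ m)).1 = (lft x : Dt (Vt κ m)).2 ↔ om χ x.1 = x.2 := by
  obtain ⟨⟨b, o⟩, l⟩ := x
  cases o with
  | none => exact Iff.rfl
  | some s =>
    obtain ⟨-, ht, hf⟩ := h3 m (kd b s) _ (loc hinv hM b s) (rc hc hk b s)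
    have e1 : (lft (((b, some s), l) : Dt (Hs κ)) : Dt (Vt κ m)).1 =
      (b, some (s, lgv l)) := rfl
    have e2 : (lft (((b, some s), l) : Dt (Hs κ)) : Dt (Vt κ m)).2 = 0 := rfl
    rw [e1, e2]
    show χ (b, some (s, lgv l)) = 0 ↔ om χ (b, some s) = l
    simp only [om]
    cases hkd : kd b s with
    | true =>
      obtain ⟨h0, h1, h2⟩ := ht hkd
      rw [if_pos h0]
      fin_cases l
      · exact ⟨fun _ => rfl, fun _ => h0⟩
      · exact ⟨fun h => absurd h h1, fun h => absurd h (by decide)⟩
      · exact ⟨fun h => absurd h h2, fun h => absurd h (by decide)⟩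
    | false =>
      obtain ⟨h0, h12⟩ := hf hkd
      rw [if_neg h0]
      by_cases h1 : χ (b, some (s, lgv 1)) = 0
      · rw [if_pos h1]
        have h2 := h12.1 h1
        fin_cases l
        · exact ⟨fun h => absurd h h0, fun h => absurd h (by decide)⟩
        · exact ⟨fun _ => rfl, fun _ => h1⟩
        · exact ⟨fun h => absurd h h2, fun h => absurd h (by decide)⟩
      · rw [if_neg h1]
        have h2 : χ (b, some (s, lgv 2)) = 0 := by
          by_contra h2
          exact h1 (h12.2 h2)
        fin_cases l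
        · exact ⟨fun h => absurd h h0, fun h => absurd h (by decide)⟩
        · exact ⟨fun h => absurd h h1, fun h => absurd h (by decide)⟩
        · exact ⟨fun _ => rfl, fun _ => h2⟩

end

theorem pf_FA (h1 : T_TF) (_h2 : T_PI) (h3 : T_PO) : T_FA := by
  intro κ m k c hS hk χ hM hc
  obtain ⟨hPG, -, -⟩ := h1 κ m c hS
  have hinv := hPG.inv
  have hu := fun x : Dt (Hs κ) => use_iff (c := c) (χ := χ) (k := k) h3 hinv hM hc hk x
  refine ⟨om χ, ⟨?_, ?_, ?_⟩, ?_⟩
  · intro h
    have e1 := (hu (h, om χ h)).2 rfl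
    have e2 := (IsM.iff hM hinv (lft (h, om χ h) : Dt (Vt κ m)).1
      (lft (h, om χ h) : Dt (Vt κ m)).2).1 e1
    have e3 : (((lft (h, om χ h) : Dt (Vt κ m)).1, (lft (h, om χ h) : Dt (Vt κ m)).2)) =
      (lft (h, om χ h) : Dt (Vt κ m)) := rfl
    rw [e3, ft_lft] at e2
    exact ((hu (ht c (h, om χ h))).1 e2).symm
  · intro i
    have hkd : kd ((i, none) : Bk κ) .ax = true := by
      unfold kd
      simp
    obtain ⟨-, ht, -⟩ := h3 m (kd (i, none) .ax) _ (loc hinv hM (i, none) .ax)
      (rc hc hk (i, none) .ax)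
    have h0 := (ht hkd).1
    simp only [om]
    rw [if_pos h0]
  · intro b s hbs
    have hkd : kd b s = false := by
      unfold kd
      exact decide_eq_false hbs
    obtain ⟨-, -, hf⟩ := h3 m (kd b s) _ (loc hinv hM b s) (rc hc hk b s)
    have h0 := (hf hkd).1
    simp only [om]
    rw [if_neg h0]
    split_ifs <;> decide
  · rw [← hc]
    unfold hcnt cnt
    have hinj : Function.Injective
        (fun p : Ix κ × Ix κ => (((p.1, some p.2), none) : Vt κ m)) := by
      rintro ⟨i, j⟩ ⟨i', j'⟩ h
      simpa using h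
    rw [← card_image_of_injective _ hinj]
    congr 1
    ext v
    rw [mem_image, mem_filter]
    constructor
    · rintro ⟨⟨i, j⟩, hp, rfl⟩
      rw [mem_filter] at hp
      obtain ⟨-, h0, hcc⟩ := hp
      refine ⟨mem_univ _, ?_⟩
      have h0' : χ ((i, some j), none) = 0 := h0
      simp only
      rw [h0']
      exact decide_eq_true hcc
    · rintro ⟨-, hv⟩
      obtain ⟨⟨i, o⟩, o'⟩ := v
      cases o' with
      | some sq =>
        obtain ⟨s, q⟩ := sq
        exfalso
        rw [fr_pole] at hv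
        obtain ⟨hr, -, -⟩ := h3 m (kd (i, o) s) _ (loc hinv hM (i, o) s) (rc hc hk (i, o) s)
        unfold rcnt at hr
        rw [card_eq_zero, filter_eq_empty_iff] at hr
        exact hr (mem_univ q) hv
      | none =>
        cases o with
        | none =>
          exfalso
          have : ∀ a : Fin 3, fr c ((((i, none), none) : Vt κ m), a) = false := by
            intro a
            fin_cases a <;> rfl
          rw [this] at hv
          exact Bool.false_ne_true hv
        | some j =>
          refine ⟨(i, j), ?_, rfl⟩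
          rw [mem_filter]
          refine ⟨mem_univ _, ?_⟩
          have h4 : ∀ a : Fin 3, fr c ((((i, some j), none) : Vt κ m), a) = true →
              a = 0 ∧ c i j = 2 := by
            intro a ha
            fin_cases a
            · exact ⟨rfl, of_decide_eq_true ha⟩
            · exact absurd ha (by simp [fr])
            · exact absurd ha (by simp [fr])
          exact h4 _ hv

end Pool.Agent.H79.EMC
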